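import Pool.Agent.Y320.CM.Stm

/-! CM-REPB: the action on hyperbolic space is proper. -/

set_option autoImplicit false
open Filter Topology

namespace Pool.Agent.Y638.CM

open Pool.Agent.Y320.CM

theorem sph_sq (p : Sph) : p.1 0 ^ 2 + p.1 1 ^ 2 + p.1 2 ^ 2 = 1 := by
  have h : ‖p.1‖ = 1 := by
    have := p.2
    rwa [mem_sphere_zero_iff_norm] at this
  have h2 : ‖p.1‖ ^ 2 = 1 := by rw [h]; norm_num
  rw [EuclideanSpace.norm_sq_eq, Fin.sum_univ_three] at h2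
  simpa using h2

theorem dist_sq (p q : Sph) : dist p q ^ 2 =
    (p.1 0 - q.1 0) ^ 2 + (p.1 1 - q.1 1) ^ 2 + (p.1 2 - q.1 2) ^ 2 := by
  rw [Subtype.dist_eq, EuclideanSpace.dist_eq, Real.sq_sqrt (by positivity), Fin.sum_univ_three]
  simp only [Real.dist_eq, sq_abs]

theorem B_N (p q : Sph) : B (N p) (N q) = -(dist p q ^ 2 / 2) := by
  have h1 := sph_sq p
  have h2 := sph_sq q
  rw [dist_sq]
  simp only [B, N, Matrix.cons_val_zero, Matrix.cons_val_one, Matrix.cons_val]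
  nlinarith

theorem B_smul_right (v w : V) (c : ℝ) : B v (c • w) = c * B v w := by
  simp only [B, Pi.smul_apply, smul_eq_mul]
  ring

theorem B_smul_left (v w : V) (c : ℝ) : B (c • v) w = c * B v w := by
  simp only [B, Pi.smul_apply, smul_eq_mul]
  ring

theorem hyp_bound (v : V) (hv : v ∈ Hyp) (p : Sph) :
    1 ≤ 2 * v 0 * -B v (N p) ∧ -B v (N p) ≤ 2 * v 0 := by
  obtain ⟨h0, h1⟩ := hv
  have h2 := sph_sq p
  obtain ⟨t, ht⟩ : ∃ t, t = v 1 * p.1 0 + v 2 * p.1 1 + v 3 * p.1 2 := ⟨_, rfl⟩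
  have h3 : -B v (N p) = v 0 - t := by
    simp only [B, N, Matrix.cons_val_zero, Matrix.cons_val_one, Matrix.cons_val]
    rw [ht]
    ring
  have h4 : t ^ 2 ≤ (v 1 ^ 2 + v 2 ^ 2 + v 3 ^ 2) * (p.1 0 ^ 2 + p.1 1 ^ 2 + p.1 2 ^ 2) := by
    rw [ht]
    nlinarith [sq_nonneg (v 1 * p.1 1 - v 2 * p.1 0), sq_nonneg (v 1 * p.1 2 - v 3 * p.1 0),
      sq_nonneg (v 2 * p.1 2 - v 3 * p.1 1)]
  rw [h2, mul_one] at h4
  have h5 : t ^ 2 ≤ v 0 ^ 2 - 1 := by linarith
  have h6 : |t| ≤ v 0 := by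
    apply abs_le_of_sq_le_sq _ h0.le
    linarith
  rw [abs_le] at h6
  rw [h3]
  constructor
  · nlinarith
  · linarith

theorem exists_three : ∃ a b e : Sph, a ≠ b ∧ a ≠ e ∧ b ≠ e := by
  have h : ∀ i : Fin 3, EuclideanSpace.single i (1 : ℝ) ∈
      Metric.sphere (0 : EuclideanSpace ℝ (Fin 3)) 1 := by
    intro i
    rw [mem_sphere_zero_iff_norm]
    simp
  refine ⟨⟨_, h 0⟩, ⟨_, h 1⟩, ⟨_, h 2⟩, ?_, ?_, ?_⟩ <;>
  · intro hh
    have h1 := congrArg Subtype.val hh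
    simp only at h1
    have h2 := congrFun (congrArg (fun x : EuclideanSpace ℝ (Fin 3) => (x : Fin 3 → ℝ)) h1)
    first
      | (have h3 := h2 0; simp at h3; done)
      | (have h3 := h2 1; simp at h3; done)

theorem hyp_B (v : V) (hv : v ∈ Hyp) : B v v = -1 := by
  obtain ⟨h0, h1⟩ := hv
  simp only [B]
  linarith

theorem t_REPB : S_REPB := by
  intro G _ τ hA F hFc hFb ρ l hl hρ hB
  have hpres : ∀ g : G, ∀ v ∈ Hyp, Matrix.mulVec (ρ g) v ∈ Hyp := by
    intro g v hv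
    obtain ⟨a, -, -, -, -, -⟩ := exists_three
    obtain ⟨u, hu⟩ : ∃ u, u = Matrix.mulVec (ρ g) v := ⟨_, rfl⟩
    have h1 : B u u = -1 := by
      rw [hu, hB]
      exact hyp_B v hv
    have h2 : l g a * B u (N (F (τ g a))) = B v (N (F a)) := by
      rw [← B_smul_right, ← hρ, hu, hB]
    have h3 : B v (N (F a)) < 0 := by
      have h4 := (hyp_bound v hv (F a)).1
      have h5 := hv.1
      by_contra hcon
      push Not at hcon
      nlinarith
    have h4 : B u (N (F (τ g a))) < 0 := by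
      by_contra hcon
      push Not at hcon
      have := mul_nonneg (hl g a).le hcon
      linarith
    rw [← hu]
    have h5 : -(u 0) ^ 2 + (u 1) ^ 2 + (u 2) ^ 2 + (u 3) ^ 2 = -1 := by
      simp only [B] at h1
      linarith
    refine ⟨?_, h5⟩
    by_contra hcon
    push Not at hcon
    have h6 : u 0 < 0 := by
      rcases hcon.lt_or_eq with h | h
      · exact h
      · exfalso
        rw [h] at h5
        nlinarith [sq_nonneg (u 1), sq_nonneg (u 2), sq_nonneg (u 3)]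
    have h7 : -u ∈ Hyp := by
      refine ⟨?_, ?_⟩
      · simp only [Pi.neg_apply]
        linarith
      · simp only [Pi.neg_apply, neg_sq]
        exact h5
    have h8 := (hyp_bound (-u) h7 (F (τ g a))).1
    have h9 : B (-u) (N (F (τ g a))) = -B u (N (F (τ g a))) := by
      simp only [B, Pi.neg_apply]
      ring
    rw [h9] at h8
    simp only [Pi.neg_apply] at h8
    nlinarith
  refine ⟨hpres, ?_⟩
  intro K hK hKH
  obtain ⟨T0, hT1, hT⟩ : ∃ T0 : ℝ, 1 ≤ T0 ∧ ∀ v ∈ K, v 0 ≤ T0 := by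
    obtain ⟨T, hT⟩ := (hK.image (continuous_apply (0 : Fin 4))).bddAbove
    exact ⟨max 1 T, le_max_left _ _, fun v hv => (hT ⟨v, hv, rfl⟩).trans (le_max_right _ _)⟩
  obtain ⟨a, b, e, hab, hae, hbe⟩ := exists_three
  have hTp : (0 : ℝ) < 4 * T0 ^ 2 := by positivity
  obtain ⟨c1, hc1, hc1a, hc1b, hc1c⟩ : ∃ c1 : ℝ, 0 < c1 ∧
      c1 ≤ dist (F a) (F b) / (4 * T0 ^ 2) ∧ c1 ≤ dist (F a) (F e) / (4 * T0 ^ 2) ∧
      c1 ≤ dist (F b) (F e) / (4 * T0 ^ 2) := by
    refine ⟨min (dist (F a) (F b) / (4 * T0 ^ 2)) (min (dist (F a) (F e) / (4 * T0 ^ 2))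
      (dist (F b) (F e) / (4 * T0 ^ 2))), ?_, min_le_left _ _,
      (min_le_right _ _).trans (min_le_left _ _), (min_le_right _ _).trans (min_le_right _ _)⟩
    refine lt_min ?_ (lt_min ?_ ?_)
    · exact div_pos (dist_pos.2 fun h => hab (hFb.1 h)) hTp
    · exact div_pos (dist_pos.2 fun h => hae (hFb.1 h)) hTp
    · exact div_pos (dist_pos.2 fun h => hbe (hFb.1 h)) hTp
  obtain ⟨c, hc, hcu⟩ := Metric.uniformContinuous_iff.1
    (CompactSpace.uniformContinuous_of_continuous hFc) c1 hc1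
  refine (hA.prop a b e hab hae hbe c hc).subset ?_
  rintro g ⟨v, hv, hw⟩
  have hl2 : ∀ x, l g x ≤ 4 * T0 ^ 2 := by
    intro x
    have h1 := (hyp_bound v (hKH hv) (F x)).2
    have h2 := (hyp_bound _ (hKH hw) (F (τ g x))).1
    have h3 : l g x * B (Matrix.mulVec (ρ g) v) (N (F (τ g x))) = B v (N (F x)) := by
      rw [← B_smul_right, ← hρ, hB]
    have h4 := hT v hv
    have h5 := hT _ hw
    have h6 := (hKH hw).1
    obtain ⟨β, hβ⟩ : ∃ β, β = -B (Matrix.mulVec (ρ g) v) (N (F (τ g x))) := ⟨_, rfl⟩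
    rw [← hβ] at h2
    have h7 : l g x * β = -B v (N (F x)) := by rw [← h3, hβ]; ring
    have hβ0 : 0 < β := by
      by_contra hcon
      push Not at hcon
      nlinarith
    have h8 : 1 ≤ 2 * T0 * β := by nlinarith
    have h9 : l g x * β ≤ 2 * T0 := by rw [h7]; linarith
    have h10 := (hl g x)
    have h11 : l g x ≤ l g x * (2 * T0 * β) := by nlinarith
    have h12 : l g x * (2 * T0 * β) = 2 * T0 * (l g x * β) := by ring
    rw [h12] at h11
    nlinarith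
  have key : ∀ x y : Sph, c1 ≤ dist (F x) (F y) / (4 * T0 ^ 2) → c ≤ dist (τ g x) (τ g y) := by
    intro x y hxy
    by_contra hcon
    push Not at hcon
    have h1 := hcu hcon
    have h2 : B (Matrix.mulVec (ρ g) (N (F x))) (Matrix.mulVec (ρ g) (N (F y))) =
        B (N (F x)) (N (F y)) := hB g _ _
    rw [hρ, hρ, B_smul_left, B_smul_right, B_N, B_N] at h2
    obtain ⟨D, hD⟩ : ∃ D, D = dist (F x) (F y) := ⟨_, rfl⟩
    obtain ⟨D', hD'⟩ : ∃ D', D' = dist (F (τ g x)) (F (τ g y)) := ⟨_, rfl⟩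
    rw [← hD, ← hD'] at h2
    rw [← hD] at hxy
    rw [← hD'] at h1
    have hD0 : 0 ≤ D := by rw [hD]; exact dist_nonneg
    have hD'0 : 0 ≤ D' := by rw [hD']; exact dist_nonneg
    rw [le_div_iff₀ hTp] at hxy
    have h3 : D ^ 2 = l g x * l g y * D' ^ 2 := by linarith
    have h4 : l g x * l g y ≤ (4 * T0 ^ 2) * (4 * T0 ^ 2) :=
      mul_le_mul (hl2 x) (hl2 y) (hl g y).le hTp.le
    have h5 : D ^ 2 ≤ (4 * T0 ^ 2 * D') ^ 2 := by
      rw [h3]
      calc l g x * l g y * D' ^ 2 ≤ (4 * T0 ^ 2) * (4 * T0 ^ 2) * D' ^ 2 :=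
            mul_le_mul_of_nonneg_right h4 (sq_nonneg _)
        _ = _ := by ring
    have h6 : D ≤ 4 * T0 ^ 2 * D' := abs_le_of_sq_le_sq' h5 (by positivity) |>.2
    have h7 : 4 * T0 ^ 2 * D' < 4 * T0 ^ 2 * c1 := mul_lt_mul_of_pos_left h1 hTp
    linarith
  exact ⟨key a b hc1a, key a e hc1b, key b e hc1c⟩

end Pool.Agent.Y638.CM
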